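import Pool.Agent.Helper49.WR2.ColourThm

/-!
# Central extensions of co-context-free type

Let `G` be a co-context-free group, `z` a central element of infinite order and `a i`, `i : ι`,
finitely many elements of `G`.  Then there is `Q ≥ 1` such that the subgroup generated by the
conjugates of the elements `a_i ^ Q` and by `z` has a homomorphism to `ℤ` which is `1` at `z` and
bounded on the conjugates of the elements `a_i ^ Q`.
(helper60)
-/

set_option autoImplicit false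

namespace Pool.Helper60.CT

open Pool.Helper49.WR

/-- A subgroup `H` which does not meet the central cyclic group `⟨z⟩` gives a homomorphism on every
subgroup contained in `H⟨z⟩`. -/
theorem exists_hom {G : Type} [Group G] (z : G) (hz : ∀ g, z * g = g * z) (H M : Subgroup G)
    (hH : ∀ m : ℤ, z ^ m ∈ H → m = 0) (hM : ∀ g ∈ M, ∃ m : ℤ, g * z ^ (-m) ∈ H) :
    ∃ φ : M →* Multiplicative ℤ, ∀ (g : M) (m : ℤ), (g : G) * z ^ (-m) ∈ H →
      Multiplicative.toAdd (φ g) = m := by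
  have hzc : ∀ (m : ℤ) (g : G), z ^ m * g = g * z ^ m := by
    intro m g
    exact ((show Commute z g from hz g).zpow_left m).eq
  have huniq : ∀ (g : G) (m m' : ℤ), g * z ^ (-m) ∈ H → g * z ^ (-m') ∈ H → m = m' := by
    intro g m m' h1 h2
    have h3 := H.mul_mem (H.inv_mem h1) h2
    have h4 : (g * z ^ (-m))⁻¹ * (g * z ^ (-m')) = z ^ (m - m') := by
      rw [mul_inv_rev, mul_assoc, inv_mul_cancel_left, zpow_neg, inv_inv, ← zpow_add]
      congr 1
    rw [h4] at h3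
    have := hH _ h3
    omega
  choose! μ hμ using hM
  refine ⟨{ toFun := fun g => Multiplicative.ofAdd (μ g), map_one' := ?_, map_mul' := ?_ }, ?_⟩
  · have h1 := hμ 1 M.one_mem
    have : μ 1 = 0 := huniq 1 _ _ h1 (by simp)
    simp [this]
  · intro x y
    have h1 := hμ x x.2
    have h2 := hμ y y.2
    have h3 := hμ (x * y) (M.mul_mem x.2 y.2)
    have h4 := H.mul_mem h1 h2
    have h5 : (x : G) * z ^ (-μ x) * ((y : G) * z ^ (-μ y)) = x * y * z ^ (-(μ x + μ y)) := by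
      rw [mul_assoc, ← mul_assoc (z ^ (-μ x)), hzc, mul_assoc, ← zpow_add, ← mul_assoc]
      congr 2
      ring
    rw [h5] at h4
    have := huniq _ _ _ h3 h4
    simp only [Subgroup.coe_mul]
    rw [this, ofAdd_add]
  · intro g m h
    exact huniq g _ _ (hμ g g.2) h

/-- Theorem C for families. -/
theorem central_family {G : Type} [Group G] (hG : CoCF G) {ι : Type} [Finite ι] (a : ι → G)
    (ha : ∀ i, a i ≠ 1) (z : G) (hz : ∀ g, z * g = g * z) (hinf : ∀ m : ℤ, z ^ m = 1 → m = 0) :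
    ∃ Q : ℕ, 0 < Q ∧ ∃ B : ℤ, ∀ M : Subgroup G,
      M ≤ Subgroup.normalClosure {g | ∃ i, g = a i ^ Q} ⊔ Subgroup.zpowers z →
      ∃ φ : M →* Multiplicative ℤ,
        (∀ (m : ℤ) (h : z ^ m ∈ M), Multiplicative.toAdd (φ ⟨z ^ m, h⟩) = m) ∧
        ∀ x i (h : x * a i ^ Q * x⁻¹ ∈ M),
          |Multiplicative.toAdd (φ ⟨x * a i ^ Q * x⁻¹, h⟩)| ≤ B := by
  classical
  have hz1 : z ≠ 1 := by
    rintro rfl
    have := hinf 1 (by simp)
    omega
  have hzc : ∀ (m : ℤ) (g : G), z ^ m * g = g * z ^ m := by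
    intro m g
    exact ((show Commute z g from hz g).zpow_left m).eq
  have hconj : ∀ (m : ℤ) (x : G), x * z ^ m * x⁻¹ = z ^ m := by
    intro m x
    rw [← hzc, mul_inv_cancel_right]
  obtain ⟨𝒱, h0, h⟩ := colour_theorem hG a (fun _ => z) (fun i => (hz (a i)).symm) ha
    (fun _ => hz1)
  -- the two common multiples
  set P : ℤ := ∏ v ∈ 𝒱, (if v.2 = 0 then 1 else v.2) with hP
  set Q : ℤ := ∏ v ∈ 𝒱, (if v.1 = 0 then 1 else v.1) with hQ
  have hP0 : P ≠ 0 := by
    rw [hP, Finset.prod_ne_zero_iff]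
    intro v _
    split_ifs with h1
    · exact one_ne_zero
    · exact h1
  have hQ0 : Q ≠ 0 := by
    rw [hQ, Finset.prod_ne_zero_iff]
    intro v _
    split_ifs with h1
    · exact one_ne_zero
    · exact h1
  have hPd : ∀ v ∈ 𝒱, v.2 ≠ 0 → v.2 ∣ P := by
    intro v hv h1
    have := Finset.dvd_prod_of_mem (fun v : D => if v.2 = 0 then (1 : ℤ) else v.2) hv
    simpa [h1] using this
  have hQd : ∀ v ∈ 𝒱, v.1 ≠ 0 → v.1 ∣ Q := by
    intro v hv h1
    have := Finset.dvd_prod_of_mem (fun v : D => if v.1 = 0 then (1 : ℤ) else v.1) hv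
    simpa [h1] using this
  obtain ⟨χ, hχ1, hχ2⟩ := h (fun j => z ^ (P * (j.factorial : ℤ))) (by
      intro j hj
      have := hinf _ hj
      rcases mul_eq_zero.1 this with h1 | h1
      · exact hP0 h1
      · exact absurd h1 (by exact_mod_cast j.factorial_ne_zero)) (by
      intro j
      refine ⟨(j + 1 : ℕ), ?_⟩
      simp only
      rw [← zpow_mul]
      congr 1
      rw [Nat.factorial_succ]
      push_cast
      ring)
  set H := hsub a (fun _ => z) χ with hHdef
  -- `H` does not meet the centre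
  have hH : ∀ m : ℤ, z ^ m ∈ H → m = 0 := by
    intro m hm
    by_contra hne
    apply hχ2 m.natAbs
    have h1 : m ∣ P * ((m.natAbs.factorial : ℕ) : ℤ) := by
      apply Dvd.dvd.mul_left
      rw [← Int.natAbs_dvd, Int.natCast_dvd_natCast]
      exact Nat.dvd_factorial (Int.natAbs_pos.2 hne) le_rfl
    obtain ⟨k, hk⟩ := h1
    rw [hk, zpow_mul]
    exact H.zpow_mem hm k
  have hcol : ∀ x i, (χ x i).1 ≠ 0 := by
    intro x i h1
    have h2 : (χ x i).2 ≠ 0 := by
      intro h2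
      have : χ x i = 0 := Prod.ext h1 h2
      exact h0 (this ▸ hχ1 x i)
    apply h2
    apply hH
    have h3 : x * (a i ^ (χ x i).1 * z ^ (χ x i).2) * x⁻¹ ∈ H :=
      Subgroup.subset_closure ⟨x, i, rfl⟩
    rwa [h1, zpow_zero, one_mul, hconj] at h3
  -- the exponents
  have hexp : ∀ x i, ∃ m : ℤ, x * a i ^ Q * x⁻¹ * z ^ (-m) ∈ H ∧
      |m| ≤ |Q| * ∑ v ∈ 𝒱, |v.2| := by
    intro x i
    obtain ⟨k, hk⟩ := hQd _ (hχ1 x i) (hcol x i)
    have h3 : x * (a i ^ (χ x i).1 * z ^ (χ x i).2) * x⁻¹ ∈ H :=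
      Subgroup.subset_closure ⟨x, i, rfl⟩
    have h4 := H.zpow_mem h3 k
    have hcomm : Commute (a i ^ (χ x i).1) (z ^ (χ x i).2) := (hzc _ _).symm
    rw [conj_zpow, hcomm.mul_zpow, ← zpow_mul, ← zpow_mul, ← hk] at h4
    refine ⟨-((χ x i).2 * k), ?_, ?_⟩
    · rw [neg_neg]
      have h5 : x * (a i ^ Q * z ^ ((χ x i).2 * k)) * x⁻¹ =
          x * a i ^ Q * x⁻¹ * z ^ ((χ x i).2 * k) := by
        rw [← hzc ((χ x i).2 * k) (a i ^ Q), ← mul_assoc, ← hzc, mul_assoc, mul_assoc, hzc,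
          mul_assoc, mul_assoc, mul_assoc, mul_assoc]
      rwa [h5] at h4
    · rw [abs_neg, abs_mul]
      have hk1 : |k| ≤ |Q| := by
        rw [hk, abs_mul]
        have : 1 ≤ |(χ x i).1| := Int.one_le_abs (hcol x i)
        nlinarith [abs_nonneg k]
      have hk2 : |(χ x i).2| ≤ ∑ v ∈ 𝒱, |v.2| :=
        Finset.single_le_sum (f := fun v : D => |v.2|) (fun _ _ => abs_nonneg _) (hχ1 x i)
      calc |(χ x i).2| * |k| ≤ (∑ v ∈ 𝒱, |v.2|) * |Q| :=
            mul_le_mul hk2 hk1 (abs_nonneg _) (Finset.sum_nonneg fun _ _ => abs_nonneg _)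
        _ = _ := mul_comm _ _
  -- the natural number `|Q|`
  have hexp' : ∀ x i, ∃ m : ℤ, x * a i ^ Q.natAbs * x⁻¹ * z ^ (-m) ∈ H ∧
      |m| ≤ |Q| * ∑ v ∈ 𝒱, |v.2| := by
    intro x i
    obtain ⟨m, h1, h2⟩ := hexp x i
    rcases Int.natAbs_eq Q with hq | hq
    · refine ⟨m, ?_, h2⟩
      rw [hq, zpow_natCast] at h1
      simpa using h1
    · refine ⟨-m, ?_, by rwa [abs_neg]⟩
      rw [hq, zpow_neg, zpow_natCast] at h1
      have h3 := H.inv_mem h1
      have h4 : (x * (a i ^ Q.natAbs)⁻¹ * x⁻¹ * z ^ (-m))⁻¹ =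
          x * a i ^ Q.natAbs * x⁻¹ * z ^ (- -m) := by
        rw [mul_inv_rev, ← zpow_neg, hzc]
        group
      rw [h4] at h3
      simpa using h3
  have hHz : ∀ g ∈ Subgroup.normalClosure {g | ∃ i, g = a i ^ Q.natAbs} ⊔ Subgroup.zpowers z,
      ∃ m : ℤ, g * z ^ (-m) ∈ H := by
    intro g hg
    -- the subgroup `H⟨z⟩`
    let K : Subgroup G :=
      { carrier := {g | ∃ m : ℤ, g * z ^ (-m) ∈ H}
        one_mem' := ⟨0, by simp⟩
        mul_mem' := by
          rintro x y ⟨m, hm⟩ ⟨k, hk⟩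
          refine ⟨m + k, ?_⟩
          have h1 := H.mul_mem hm hk
          have h2 : x * z ^ (-m) * (y * z ^ (-k)) = x * y * z ^ (-(m + k)) := by
            rw [mul_assoc, ← mul_assoc (z ^ (-m)), hzc, mul_assoc, ← zpow_add, ← mul_assoc]
            congr 2
            ring
          rwa [h2] at h1
        inv_mem' := by
          rintro x ⟨m, hm⟩
          refine ⟨-m, ?_⟩
          have h1 := H.inv_mem hm
          have h2 : (x * z ^ (-m))⁻¹ = x⁻¹ * z ^ (- -m) := by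
            rw [mul_inv_rev, ← zpow_neg, hzc]
          rwa [h2] at h1 }
    have h1 : Subgroup.normalClosure {g | ∃ i, g = a i ^ Q.natAbs} ≤ K := by
      rw [Subgroup.normalClosure, Subgroup.closure_le]
      intro y hy
      rw [Group.mem_conjugatesOfSet_iff] at hy
      obtain ⟨w, ⟨i, rfl⟩, hw⟩ := hy
      obtain ⟨x, rfl⟩ := isConj_iff.1 hw
      obtain ⟨m, hm, -⟩ := hexp' x i
      exact ⟨m, hm⟩
    have h2 : Subgroup.zpowers z ≤ K := by
      rw [Subgroup.zpowers_le]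
      exact ⟨1, by simp⟩
    exact (sup_le h1 h2) hg
  refine ⟨Q.natAbs, Int.natAbs_pos.2 hQ0, |Q| * ∑ v ∈ 𝒱, |v.2|, fun M hM => ?_⟩
  obtain ⟨φ, hφ⟩ := exists_hom z hz H M hH (fun g hg => hHz g (hM hg))
  refine ⟨φ, ?_, ?_⟩
  · intro m hm
    apply hφ
    simp
  · intro x i hx
    obtain ⟨m, h1, h2⟩ := hexp' x i
    rw [hφ ⟨_, hx⟩ m h1]
    exact h2

end Pool.Helper60.CT
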