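import Pool.Agent.Helper60.CT.Central

/-!
# Consequences of the theorem on central elements

* `central_finset`: the theorem for a finite set of elements, in the form of the hand-in.
* `no_perfect`: if `z` is a central element of infinite order of a co-context-free group and
  `K ∋ z` is a perfect subgroup such that `K/⟨z⟩` is simple then every element of `K` has a power
  in `⟨z⟩`.  For instance the lift to the real line of Thompson's group `T` is not contained in a
  co-context-free group.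
(helper60)
-/

set_option autoImplicit false

namespace Pool.Helper60.CT

open Pool.Helper49.WR

theorem central_finset {G : Type} [Group G] (hG : CoCF G) (z : G)
    (hz : z ∈ Subgroup.center G) (hinf : ∀ m : ℤ, z ^ m = 1 → m = 0) (A : Finset G) :
    ∃ Q : ℕ, 0 < Q ∧
      ∃ φ : ↥(Subgroup.normalClosure {g | ∃ a ∈ A, g = a ^ Q} ⊔ Subgroup.zpowers z) →*
          Multiplicative ℤ,
        (∀ h, φ ⟨z, h⟩ = Multiplicative.ofAdd 1) ∧
        ∃ B : ℤ, ∀ x : G, ∀ a ∈ A, ∀ h, |Multiplicative.toAdd (φ ⟨x * a ^ Q * x⁻¹, h⟩)| ≤ B := by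
  classical
  have hz' : ∀ g, z * g = g * z := fun g => (Subgroup.mem_center_iff.1 hz g).symm
  have : Finite {a // a ∈ A ∧ a ≠ 1} :=
    (A.finite_toSet.subset fun a (h : a ∈ A ∧ a ≠ 1) => h.1).to_subtype
  obtain ⟨Q, hQ, B, h⟩ := central_family hG (ι := {a // a ∈ A ∧ a ≠ 1}) (fun a => a.1)
    (fun a => a.2.2) z hz' hinf
  obtain ⟨φ, h1, h2⟩ := h
    (Subgroup.normalClosure {g | ∃ a ∈ A, g = a ^ Q} ⊔ Subgroup.zpowers z) (by
      refine sup_le_sup_right ?_ _
      refine Subgroup.normalClosure_le_normal ?_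
      rintro g ⟨a, ha, rfl⟩
      by_cases h1 : a = 1
      · rw [h1, one_pow]
        exact Subgroup.one_mem _
      · exact Subgroup.subset_normalClosure ⟨⟨a, ha, h1⟩, rfl⟩)
  refine ⟨Q, hQ, φ, ?_, max B 0, ?_⟩
  · intro hmem
    have h3 := h1 1 (by simpa using hmem)
    rw [← ofAdd_toAdd (φ ⟨z, hmem⟩)]
    congr 1
    rw [← h3]
    congr 2
    exact Subtype.ext (zpow_one z).symm
  · intro x a ha hmem
    by_cases h3 : a = 1
    · have : (⟨x * a ^ Q * x⁻¹, hmem⟩ :
          ↥(Subgroup.normalClosure {g | ∃ a ∈ A, g = a ^ Q} ⊔ Subgroup.zpowers z)) = 1 := by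
        apply Subtype.ext
        simp [h3]
      rw [this, map_one]
      simp
    · exact le_trans (h2 x ⟨a, ha, h3⟩ hmem) (le_max_left _ _)

theorem no_perfect {G : Type} [Group G] (hG : CoCF G) (z : G)
    (hz : z ∈ Subgroup.center G) (hinf : ∀ m : ℤ, z ^ m = 1 → m = 0) (K : Subgroup G)
    (hzK : z ∈ K) (hperf : commutator K = ⊤)
    (hsimp : ∀ N : Subgroup K, N.Normal → (⟨z, hzK⟩ : K) ∈ N →
      N = Subgroup.zpowers ⟨z, hzK⟩ ∨ N = ⊤) (a : G) (ha : a ∈ K) :
    ∃ m : ℕ, 0 < m ∧ a ^ m ∈ Subgroup.zpowers z := by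
  classical
  have hz' : ∀ g, z * g = g * z := fun g => (Subgroup.mem_center_iff.1 hz g).symm
  by_cases ha1 : a = 1
  · exact ⟨1, one_pos, by rw [ha1, one_pow]; exact Subgroup.one_mem _⟩
  obtain ⟨Q, hQ, B, h⟩ := central_family hG (ι := Unit) (fun _ => a) (fun _ => ha1) z hz' hinf
  by_contra hcon
  push Not at hcon
  set M := Subgroup.normalClosure {g | ∃ _ : Unit, g = a ^ Q} ⊔ Subgroup.zpowers z with hM
  have hMn : M.Normal := by
    have : (Subgroup.zpowers z).Normal := by
      constructor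
      rintro n ⟨k, rfl⟩ g
      refine ⟨k, ?_⟩
      have h4 : z ^ k * g = g * z ^ k := ((show Commute z g from hz' g).zpow_left k).eq
      simp only
      rw [← h4, mul_inv_cancel_right]
    exact Subgroup.sup_normal _ _
  have hzM : z ∈ M := Subgroup.mem_sup_right (Subgroup.mem_zpowers z)
  have haM : a ^ Q ∈ M := Subgroup.mem_sup_left (Subgroup.subset_normalClosure ⟨(), rfl⟩)
  have hKM : K ≤ M := by
    rcases hsimp (M.subgroupOf K) (by
      have := hMn
      exact Subgroup.normal_subgroupOf) (by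
      rw [Subgroup.mem_subgroupOf]
      exact hzM) with h3 | h3
    · exfalso
      apply hcon Q hQ
      have h4 : (⟨a ^ Q, K.pow_mem ha Q⟩ : K) ∈ M.subgroupOf K := by
        rw [Subgroup.mem_subgroupOf]
        exact haM
      rw [h3] at h4
      obtain ⟨k, hk⟩ := h4
      refine ⟨k, ?_⟩
      have := congrArg Subtype.val hk
      simpa using this
    · exact Subgroup.subgroupOf_eq_top.1 h3
  obtain ⟨ψ, h1, -⟩ := h K hKM
  have h5 : commutator K ≤ ψ.ker := Abelianization.commutator_subset_ker ψ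
  have h6 : (⟨z, hzK⟩ : K) ∈ ψ.ker := h5 (by rw [hperf]; trivial)
  have h7 := h1 1 (by simpa using hzK)
  have h8 : (⟨z ^ (1 : ℤ), by simpa using hzK⟩ : K) = ⟨z, hzK⟩ := Subtype.ext (zpow_one z)
  rw [h8, (MonoidHom.mem_ker.1 h6)] at h7
  simp at h7

end Pool.Helper60.CT
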